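import Pool.Agent.N928.FG.Stm

/-!
# FG/GEN: generators and length of the free product
-/

set_option autoImplicit false

namespace Pool.Agent.N364.FG.GEN

open Pool.Agent.Helper125 Pool.Agent.Helper125.Gam
open Pool.Agent.N928.FG

theorem red_spec (x : Ga) : Red (red x) ∧ ev (red x) = x := by
  classical
  unfold red
  refine ⟨⟨(Monoid.CoprodI.Word.equiv x).ne_one, (Monoid.CoprodI.Word.equiv x).chain_ne⟩, ?_⟩
  exact Monoid.CoprodI.Word.equiv.symm_apply_apply x

theorem L_ev {l : List (Lt A)} (h : Red l) : L (ev l) = (l.map (fun s => nrm s.2)).sum := by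
  have h1 := red_spec (ev l)
  have h2 : red (ev l) = l := red_inj h1.1 h h1.2
  unfold L
  rw [h2]

theorem L_one : L (1 : Ga) = 0 := by
  have h : Red ([] : List (Lt A)) := ⟨by simp, by simp⟩
  have h1 := L_ev h
  rw [ev_nil] at h1
  simpa using h1

theorem nrm_one : nrm (1 : A) = 0 := by
  unfold nrm cd
  simp

theorem nrm_mul (a b : A) : nrm (a * b) ≤ nrm a + nrm b := by
  unfold nrm cd
  rw [← Finset.sum_add_distrib]
  refine Finset.sum_le_sum fun i _ => ?_
  rw [toAdd_mul, Pi.add_apply]
  exact Int.natAbs_add_le _ _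

theorem mem_cube (a : A) : a ∈ cube ↔ ∀ i, -1 ≤ cd a i ∧ cd a i ≤ 1 := by
  unfold cube cd
  rw [Finset.mem_map]
  constructor
  · rintro ⟨f, hf, rfl⟩ i
    rw [Fintype.mem_piFinset] at hf
    have := hf i
    rw [Finset.mem_Icc] at this
    exact this
  · intro h
    refine ⟨Multiplicative.toAdd a, ?_, rfl⟩
    rw [Fintype.mem_piFinset]
    intro i
    rw [Finset.mem_Icc]
    exact h i

theorem nrm_cube (a : A) (h : a ∈ cube) : nrm a ≤ 6 := by
  rw [mem_cube] at h
  unfold nrm
  calc ∑ i, (cd a i).natAbs ≤ ∑ _i : Fin 6, 1 := by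
        refine Finset.sum_le_sum fun i _ => ?_
        have := h i
        omega
    _ = 6 := by simp

theorem inv_cube (a : A) (h : a ∈ cube) : a⁻¹ ∈ cube := by
  rw [mem_cube] at h ⊢
  intro i
  have h1 := h i
  have h2 : cd a⁻¹ i = -cd a i := by
    unfold cd
    rw [toAdd_inv, Pi.neg_apply]
  rw [h2]
  constructor <;> omega

theorem L_inc_mul (b : Bool) (a : A) (l : List (Lt A)) (hl : Red l)
    (hb : ∀ x ∈ l.head?, x.1 ≠ b) :
    L (inc b a * ev l) = nrm a + (l.map (fun s => nrm s.2)).sum := by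
  by_cases ha : a = 1
  · subst ha
    rw [map_one, one_mul, L_ev hl, nrm_one, zero_add]
  · have hr : Red ((⟨b, a⟩ : Lt A) :: l) := by
      refine ⟨?_, ?_⟩
      · intro x hx
        rcases List.mem_cons.mp hx with rfl | hx
        · exact ha
        · exact hl.1 x hx
      · rw [List.isChain_cons]
        exact ⟨fun y hy => fun h => hb y hy h.symm, hl.2⟩
    have := L_ev hr
    rw [ev_cons] at this
    rw [this, List.map_cons, List.sum_cons]

theorem L_inc_le (b : Bool) (c : A) (x : Ga) : L (inc b c * x) ≤ nrm c + L x := by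
  obtain ⟨a, l, rfl, hl, hb⟩ := split b x
  rw [← mul_assoc, ← map_mul, L_inc_mul b (c * a) l hl hb, L_inc_mul b a l hl hb]
  have := nrm_mul c a
  omega

theorem gens_form (y : Ga) (h : y ∈ gens ∨ y⁻¹ ∈ gens) : ∃ (b : Bool) (a : A), a ∈ cube ∧
    y = inc b a := by
  have key : ∀ z : Ga, z ∈ gens → ∃ (b : Bool) (a : A), a ∈ cube ∧ z = inc b a := by
    intro z hz
    unfold gens at hz
    rw [Finset.mem_union, Finset.mem_image, Finset.mem_image] at hz
    rcases hz with ⟨a, ha, rfl⟩ | ⟨a, ha, rfl⟩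
    · exact ⟨true, a, ha, rfl⟩
    · exact ⟨false, a, ha, rfl⟩
  rcases h with h | h
  · exact key y h
  · obtain ⟨b, a, ha, h1⟩ := key _ h
    refine ⟨b, a⁻¹, inv_cube a ha, ?_⟩
    rw [map_inv, ← h1, inv_inv]

theorem inc_mem (b : Bool) (a : A) (ha : a ∈ cube) : inc b a ∈ (gens : Set Ga) := by
  rw [Finset.mem_coe]
  unfold gens
  rw [Finset.mem_union, Finset.mem_image, Finset.mem_image]
  cases b
  · exact Or.inr ⟨a, ha, rfl⟩
  · exact Or.inl ⟨a, ha, rfl⟩

theorem inc_clo (b : Bool) (a : A) : inc b a ∈ Subgroup.closure (gens : Set Ga) := by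
  have h1 : a = ∏ i : Fin 6, (Multiplicative.ofAdd (Pi.single i (1 : ℤ) : Fin 6 → ℤ)) ^ (cd a i) := by
    have h2 : (Multiplicative.toAdd a : Fin 6 → ℤ) =
        ∑ i : Fin 6, (cd a i) • (Pi.single i (1 : ℤ) : Fin 6 → ℤ) := by
      funext j
      rw [Finset.sum_apply]
      simp [cd, Pi.single_apply]
    have h3 : a = Multiplicative.ofAdd (Multiplicative.toAdd a) := (ofAdd_toAdd a).symm
    conv_lhs => rw [h3, h2, ofAdd_sum]
    refine Finset.prod_congr rfl fun i _ => ?_
    rw [ofAdd_zsmul]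
  have h4 : a ∈ (Subgroup.closure (gens : Set Ga)).comap (inc b) := by
    rw [h1]
    refine Subgroup.prod_mem _ fun i _ => ?_
    refine Subgroup.zpow_mem _ ?_ _
    rw [Subgroup.mem_comap]
    apply Subgroup.subset_closure
    apply inc_mem
    rw [mem_cube]
    intro j
    unfold cd
    rw [toAdd_ofAdd]
    by_cases h : j = i
    · subst h
      simp
    · simp [h]
  exact h4

theorem t_GEN : S_GEN := by
  refine ⟨?_, ?_⟩
  · rw [eq_top_iff]
    intro x _
    obtain ⟨l, -, rfl⟩ := exists_red x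
    induction l with
    | nil =>
      rw [ev_nil]
      exact one_mem _
    | cons y l ih =>
      rw [ev_cons]
      exact mul_mem (inc_clo _ _) (ih trivial)
  · intro l
    induction l with
    | nil =>
      intro _
      rw [List.prod_nil, L_one]
      exact Nat.zero_le _
    | cons y l ih =>
      intro h
      have h1 := ih (fun z hz => h z (List.mem_cons_of_mem _ hz))
      obtain ⟨b, a, ha, rfl⟩ := gens_form y (h y List.mem_cons_self)
      rw [List.prod_cons, List.length_cons]
      have h2 := L_inc_le b a l.prod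
      have h3 := nrm_cube a ha
      omega

end Pool.Agent.N364.FG.GEN
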